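import Pool.Agent.W984.PH.Stm

set_option autoImplicit false

open Finset Pool.Agent.W984.PH

namespace Pool.Agent.W12.PH

lemma eta_facts {r : ℕ} (hr : 3 ≤ r) : 0 < eta r ∧ eta r ≤ 1 / 300 ∧ (r : ℝ) * eta r = 1 / 100 ∧
    0 < del r ∧ del r ≤ eta r / 64 ∧ del r * 4 ^ r = eta r := by
  have hr' : (3 : ℝ) ≤ r := by exact_mod_cast hr
  have hr0 : (0 : ℝ) < r := by linarith
  have h1 : 0 < eta r := by unfold eta; positivity
  have h2 : (r : ℝ) * eta r = 1 / 100 := by unfold eta; field_simp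
  have h4 : (64 : ℝ) ≤ 4 ^ r := by
    have : (4 : ℝ) ^ 3 ≤ 4 ^ r := pow_le_pow_right₀ (by norm_num) hr
    norm_num at this
    exact this
  refine ⟨h1, by nlinarith, h2, ?_, ?_, ?_⟩
  · unfold del; positivity
  · unfold del
    exact div_le_div_of_nonneg_left h1.le (by norm_num) h4
  · unfold del
    field_simp

lemma bern {x : ℝ} (h0 : 0 ≤ x) (h1 : x ≤ 1) (n : ℕ) : 1 - n * x ≤ (1 - x) ^ n := by
  have := one_add_mul_le_pow (a := -x) (by linarith) n
  have e1 : 1 + (n : ℝ) * (-x) = 1 - n * x := by ring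
  have e2 : (1 + -x) = 1 - x := by ring
  rw [e1, e2] at this
  exact this

/-- common setting -/
lemma setting {s t C : ℝ} (hs : 0 < s) (hst : s ≤ t) (hC : 0 ≤ C) {σ : ℝ} (hσ : σ = s / (s + t)) :
    0 < σ ∧ σ ≤ 1 / 2 ∧ 1 / (s + t) = σ / s ∧ C / t ≤ 2 * (C / s) * σ ∧ C / t ≤ C / s := by
  have ht : 0 < t := hs.trans_le hst
  have hN : 0 < s + t := by linarith
  refine ⟨?_, ?_, ?_, ?_, ?_⟩
  · rw [hσ]; positivity
  · rw [hσ, div_le_div_iff₀ hN (by norm_num)]; linarith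
  · rw [hσ]; field_simp
  · rw [hσ]
    have e : 2 * (C / s) * (s / (s + t)) = 2 * C / (s + t) := by field_simp
    rw [e, div_le_div_iff₀ ht hN]
    nlinarith
  · exact div_le_div_of_nonneg_left hC hs hst

theorem s_nume : S_NUME := by
  intro r C hr hC
  obtain ⟨hh0, hh1, hrh, hd0, hd1, hd2⟩ := eta_facts hr
  set h := eta r with hh
  set d := del r with hd
  have hr' : (3 : ℝ) ≤ r := by exact_mod_cast hr
  obtain ⟨n, hn⟩ := exists_nat_ge (200 * C)
  have hn1 : 1 ≤ n := by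
    have : (1 : ℝ) ≤ n := by linarith
    exact_mod_cast this
  refine ⟨n, hn1, ?_⟩
  intro s t hs hst σ α β hσ hα hβ
  have hs0 : 0 < s := by
    have : (1 : ℝ) ≤ n := by exact_mod_cast hn1
    linarith
  have ht0 : 0 < t := hs0.trans_le hst
  obtain ⟨k1, k2, k3, k4, k5⟩ := setting hs0 hst (by linarith : (0 : ℝ) ≤ C) hσ
  have hCs : C / s ≤ 1 / 200 := by
    rw [div_le_div_iff₀ hs0 (by norm_num)]
    linarith
  have hCs0 : 0 < C / s := by positivity
  have hCt0 : 0 < C / t := by positivity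
  have hr2 : (((r - 2 : ℕ)) : ℝ) = r - 2 := by
    rw [Nat.cast_sub (by omega)]; norm_num
  have hrr : (r - 2) + 2 = r := by omega
  have hA : 0 < α - d * σ := by
    rw [hα]
    have : (1 - h) * σ - d * σ = (1 - h - d) * σ := by ring
    rw [this]
    apply mul_pos _ k1
    linarith
  have hB : 1 / 4 ≤ 1 - β - d * σ := by
    rw [hβ]
    nlinarith
  refine ⟨hA, hB, ?_, ?_, ?_⟩
  · rw [div_le_iff₀ (pow_pos hA _)]
    have e1 : α - d * σ = (1 - (h + d)) * σ := by rw [hα]; ring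
    have e2 : β ^ r = (1 + h) ^ r * (σ ^ (r - 2) * σ ^ 2) := by
      rw [hβ, mul_pow, ← pow_add, hrr]
    rw [e1, e2, mul_pow]
    have b1 : (1 + h) ^ r ≤ 100 / 99 := by
      have b2 : (1 + h) ^ r * (1 - h) ^ r ≤ 1 := by
        rw [← mul_pow]
        apply pow_le_one₀
        · nlinarith
        · nlinarith
      have b3 := bern (x := h) hh0.le (by linarith) r
      rw [hrh] at b3
      have b4 : 0 < (1 + h) ^ r := by positivity
      nlinarith
    have b5 : 98 / 100 ≤ (1 - (h + d)) ^ (r - 2) := by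
      have b6 := bern (x := h + d) (by linarith) (by linarith) (r - 2)
      rw [hr2] at b6
      nlinarith
    have b7 : (1 + C / s) * (1 + h) ^ r ≤ 6 / 5 * (1 - (h + d)) ^ (r - 2) := by
      have : (1 + C / s) * (1 + h) ^ r ≤ (201 / 200) * (100 / 99) :=
        mul_le_mul (by linarith) b1 (by positivity) (by norm_num)
      linarith
    have b8 : 0 ≤ σ ^ (r - 2) * σ ^ 2 := by positivity
    have := mul_le_mul_of_nonneg_right b7 b8
    calc (1 + C / s) * ((1 + h) ^ r * (σ ^ (r - 2) * σ ^ 2))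
        = (1 + C / s) * (1 + h) ^ r * (σ ^ (r - 2) * σ ^ 2) := by ring
      _ ≤ _ := this
      _ = _ := by ring
  · have hg : 0 < 1 - β - d * σ := by linarith
    rw [div_le_iff₀ (pow_pos hg _)]
    set a := 1 - α with ha
    have ha1 : 1 / 2 ≤ a := by rw [ha, hα]; nlinarith
    have hx0 : 0 ≤ 6 * h * σ := by positivity
    have hx1 : 6 * h * σ ≤ 1 := by nlinarith
    have g1 : a * (1 - 6 * h * σ) ≤ 1 - β - d * σ := by
      have e : 1 - β - d * σ = a - (2 * h + d) * σ := by rw [ha, hα, hβ]; ring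
      rw [e]
      have : (2 * h + d) * σ ≤ 3 * h * σ := by nlinarith
      nlinarith
    have g2 : a ^ (r - 2) * (1 - 6 / 100 * σ) ≤ (1 - β - d * σ) ^ (r - 2) := by
      have b6 := bern (x := 6 * h * σ) hx0 hx1 (r - 2)
      rw [hr2] at b6
      have b7 : 1 - 6 / 100 * σ ≤ (1 - 6 * h * σ) ^ (r - 2) := by
        refine le_trans ?_ b6
        have : ((r : ℝ) - 2) * (6 * h * σ) ≤ (r : ℝ) * (6 * h * σ) := by nlinarith
        have e : (r : ℝ) * (6 * h * σ) = 6 * σ * (r * h) := by ring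
        rw [e, hrh] at this
        linarith
      calc a ^ (r - 2) * (1 - 6 / 100 * σ) ≤ a ^ (r - 2) * (1 - 6 * h * σ) ^ (r - 2) :=
            mul_le_mul_of_nonneg_left b7 (by positivity)
        _ = (a * (1 - 6 * h * σ)) ^ (r - 2) := by rw [mul_pow]
        _ ≤ _ := pow_le_pow_left₀ (mul_nonneg (by linarith) (by linarith)) g1 _
    have g3 : (1 + C / t) * a ^ 2 ≤ (1 - σ) * (1 - 4 / 5 * σ) * (1 - 6 / 100 * σ) := by
      have c1 : C / t ≤ 1 / 100 * σ := by nlinarith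
      have c2 : a ≤ (1 - σ) * (1 + 2 * h * σ) := by
        rw [ha, hα]
        nlinarith [mul_nonneg hh0.le k1.le]
      have c3 : 2 * h * σ ≤ 7 / 1000 * σ := by nlinarith
      have c4 : a ≤ (1 - σ) * (1 + 7 / 1000 * σ) :=
        c2.trans (mul_le_mul_of_nonneg_left (by linarith) (by linarith))
      have c5 : a ^ 2 ≤ ((1 - σ) * (1 + 7 / 1000 * σ)) ^ 2 := pow_le_pow_left₀ (by linarith) c4 2
      have c6 : (1 + C / t) * a ^ 2 ≤ (1 + 1 / 100 * σ) * ((1 - σ) * (1 + 7 / 1000 * σ)) ^ 2 :=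
        mul_le_mul (by linarith) c5 (by positivity) (by positivity)
      refine c6.trans ?_
      have c7 : (1 + 1 / 100 * σ) * ((1 - σ) * (1 + 7 / 1000 * σ) ^ 2) ≤
          (1 - 4 / 5 * σ) * (1 - 6 / 100 * σ) := by
        have q1 : (1 + 7 / 1000 * σ) ^ 2 ≤ 1 + 15 / 1000 * σ := by nlinarith
        have q2 : (1 + 1 / 100 * σ) * (1 + 15 / 1000 * σ) ≤ 1 + 26 / 1000 * σ := by nlinarith
        have q3 : (1 - σ) * ((1 + 1 / 100 * σ) * (1 + 7 / 1000 * σ) ^ 2) ≤
            (1 - σ) * (1 + 26 / 1000 * σ) := by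
          apply mul_le_mul_of_nonneg_left _ (by linarith)
          refine le_trans ?_ q2
          exact mul_le_mul_of_nonneg_left q1 (by positivity)
        nlinarith
      have c8 : 0 ≤ 1 - σ := by linarith
      have := mul_le_mul_of_nonneg_left c7 c8
      calc (1 + 1 / 100 * σ) * ((1 - σ) * (1 + 7 / 1000 * σ)) ^ 2
          = (1 - σ) * ((1 + 1 / 100 * σ) * ((1 - σ) * (1 + 7 / 1000 * σ) ^ 2)) := by ring
        _ ≤ _ := this
        _ = _ := by ring
    have g4 : 0 ≤ (1 - σ) * (1 - 4 / 5 * σ) := mul_nonneg (by linarith) (by linarith)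
    calc (1 + C / t) * a ^ r = ((1 + C / t) * a ^ 2) * a ^ (r - 2) := by
          rw [mul_assoc, ← pow_add]; congr 2; omega
      _ ≤ ((1 - σ) * (1 - 4 / 5 * σ) * (1 - 6 / 100 * σ)) * a ^ (r - 2) :=
          mul_le_mul_of_nonneg_right g3 (by positivity)
      _ = ((1 - σ) * (1 - 4 / 5 * σ)) * (a ^ (r - 2) * (1 - 6 / 100 * σ)) := by ring
      _ ≤ _ := mul_le_mul_of_nonneg_left g2 g4
  · have hg : 0 < 1 - β - d * σ := by linarith
    rw [div_le_iff₀ (pow_pos hg _)]
    have g1 : (1 / 4 : ℝ) ^ (r - 2) ≤ (1 - β - d * σ) ^ (r - 2) :=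
      pow_le_pow_left₀ (by norm_num) hB _
    have g2 : d = h / 16 * (1 / 4 : ℝ) ^ (r - 2) := by
      rw [← hd2, one_div, inv_pow]
      have : (4 : ℝ) ^ r = 4 ^ (r - 2) * 16 := by
        rw [show (16 : ℝ) = 4 ^ 2 by norm_num, ← pow_add, hrr]
      rw [this]
      field_simp
    have g3 : d ≤ h / 16 * (1 - β - d * σ) ^ (r - 2) := by
      calc d = h / 16 * (1 / 4 : ℝ) ^ (r - 2) := g2
        _ ≤ _ := mul_le_mul_of_nonneg_left g1 (by positivity)
    have g4 : 0 < (1 - β - d * σ) ^ (r - 2) := pow_pos hg _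
    calc (1 + C / t) * (d * σ) ≤ 2 * (d * σ) :=
          mul_le_mul_of_nonneg_right (by linarith) (by positivity)
      _ = 2 * σ * d := by ring
      _ ≤ 2 * σ * (h / 16 * (1 - β - d * σ) ^ (r - 2)) :=
          mul_le_mul_of_nonneg_left g3 (by positivity)
      _ = (2 * σ * (h / 16)) * (1 - β - d * σ) ^ (r - 2) := by ring
      _ ≤ σ / 5 * (1 - β - d * σ) ^ (r - 2) := by
          apply mul_le_mul_of_nonneg_right _ g4.le
          nlinarith

end Pool.Agent.W12.PH
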