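import Pool.Agent.W12.PH.Nume

set_option autoImplicit false

open Finset Pool.Agent.W984.PH

namespace Pool.Agent.W12.PH

lemma polyA {a σ h d c : ℝ} (hσ0 : 0 < σ) (hσ1 : σ ≤ 1 / 2) (hh0 : 0 < h) (hh1 : h ≤ 1 / 300)
    (hd0 : 0 < d) (hd1 : d ≤ h / 64) (hc0 : 0 < c) (hc1 : c ≤ h / 1000)
    (ha : a = 1 - σ + h * σ) :
    (a * (1 + c * σ) + 2 * (d * σ)) * (1 - σ) < (a - d * σ) ^ 2 * (1 - 2 * c * σ) := by
  have ha0 : 1 / 2 ≤ a := by
    have : 0 < h * σ := by positivity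
    linarith
  have ha1 : a ≤ 1 := by
    have : h * σ ≤ 1 * σ := mul_le_mul_of_nonneg_right (by linarith) hσ0.le
    linarith
  have hcσ : 0 < c * σ := by positivity
  have hdσ : 0 < d * σ := by positivity
  have hcσ1 : c * σ ≤ 1 / 4 := by
    have : c * σ ≤ 1 / 2 * (1 / 2) := mul_le_mul (by linarith) hσ1 hσ0.le (by norm_num)
    linarith
  have g3 : 0 < 1 - 2 * c * σ := by linarith
  have p1 : (a - d * σ) ^ 2 ≥ a ^ 2 - 2 * (d * σ) := by
    have : a * (d * σ) ≤ 1 * (d * σ) := mul_le_mul_of_nonneg_right ha1 hdσ.le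
    have e : (a - d * σ) ^ 2 = a ^ 2 - 2 * (a * (d * σ)) + (d * σ) ^ 2 := by ring
    rw [e]
    have := sq_nonneg (d * σ)
    linarith
  have p2 : (a - d * σ) ^ 2 * (1 - 2 * c * σ) ≥ a ^ 2 - 2 * (d * σ) - 2 * (c * σ) := by
    have f1 := mul_le_mul_of_nonneg_right p1 g3.le
    have f3 : a ^ 2 * (2 * (c * σ)) ≤ 1 * (2 * (c * σ)) :=
      mul_le_mul_of_nonneg_right (by
        have : a ^ 2 ≤ 1 ^ 2 := pow_le_pow_left₀ (by linarith) ha1 2
        linarith) (by positivity)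
    have f4 : 0 ≤ (d * σ) * (c * σ) := by positivity
    have e : (a ^ 2 - 2 * (d * σ)) * (1 - 2 * c * σ) =
      a ^ 2 - 2 * (d * σ) - a ^ 2 * (2 * (c * σ)) + 4 * ((d * σ) * (c * σ)) := by ring
    rw [e] at f1
    linarith
  have p3 : (a * (1 + c * σ) + 2 * (d * σ)) * (1 - σ) ≤ a * (1 - σ) + c * σ + 2 * (d * σ) := by
    have f1 : a * (c * σ) * (1 - σ) ≤ 1 * (c * σ) * 1 := by
      apply mul_le_mul _ (by linarith) (by linarith) (by positivity)
      exact mul_le_mul_of_nonneg_right ha1 (by positivity)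
    have f2 : 0 ≤ (d * σ) * σ := by positivity
    have e : (a * (1 + c * σ) + 2 * (d * σ)) * (1 - σ) =
      a * (1 - σ) + a * (c * σ) * (1 - σ) + 2 * (d * σ) - 2 * ((d * σ) * σ) := by ring
    rw [e]
    linarith
  have p4 : a ^ 2 - a * (1 - σ) = a * (h * σ) := by rw [ha]; ring
  have p5 : a * (h * σ) ≥ 1 / 2 * (h * σ) := mul_le_mul_of_nonneg_right ha0 (by positivity)
  have p6 : (4 * d + 3 * c) * σ < 1 / 2 * h * σ := by
    apply mul_lt_mul_of_pos_right _ hσ0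
    linarith
  linarith

lemma polyB {σ h d c : ℝ} (hσ0 : 0 < σ) (hσ1 : σ ≤ 1 / 2) (hh0 : 0 < h) (hh1 : h ≤ 1 / 300)
    (hd0 : 0 < d) (hd1 : d ≤ h / 64) (hc0 : 0 < c) (hc1 : c ≤ h / 1000) :
    (1 + h) * (1 + c * σ) + 3 * d < (1 + h - d) ^ 2 * (1 - c) := by
  have g3 : 0 < 1 - c := by linarith
  have p1 : (1 + h - d) ^ 2 ≥ 1 + 2 * h - 2 * d := by
    have e : (1 + h - d) ^ 2 = 1 + 2 * h - 2 * d + (h - d) ^ 2 := by ring
    rw [e]
    have := sq_nonneg (h - d)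
    linarith
  have q1 : 0 < d * c := mul_pos hd0 hc0
  have q2 : h * c ≤ 1 / 300 * c := mul_le_mul_of_nonneg_right hh1 hc0.le
  have p2 : (1 + h - d) ^ 2 * (1 - c) ≥ 1 + 2 * h - 2 * d - 2 * c := by
    have f1 := mul_le_mul_of_nonneg_right p1 g3.le
    have e : (1 + 2 * h - 2 * d) * (1 - c) = 1 + 2 * h - 2 * d - c - 2 * (h * c) + 2 * (d * c) := by
      ring
    rw [e] at f1
    linarith
  have p3 : (1 + h) * (1 + c * σ) ≤ 1 + h + 2 * c := by
    have f1 : c * σ ≤ c * 1 := mul_le_mul_of_nonneg_left (by linarith) hc0.le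
    have f2 : (1 + h) * (c * σ) ≤ 2 * (c * 1) :=
      mul_le_mul (by linarith) f1 (by positivity) (by norm_num)
    have e : (1 + h) * (1 + c * σ) = 1 + h + (1 + h) * (c * σ) := by ring
    rw [e]
    linarith
  linarith

/-- final step for `xA` -/
lemma finA {N t σ h d c a xA Ct : ℝ} (hN : 0 < N) (ht : 0 < t) (hσ0 : 0 < σ) (hσ1 : σ ≤ 1 / 2)
    (hh0 : 0 < h) (hh1 : h ≤ 1 / 300)
    (hd0 : 0 < d) (hd1 : d ≤ h / 64) (hc0 : 0 < c) (hc1 : c ≤ h / 1000)
    (ha : a = 1 - σ + h * σ) (hNt : 1 / t = 1 / N * (1 / (1 - σ)))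
    (hCt : Ct ≤ 2 * c * σ) (hx : a - d * σ ≤ 1 - xA) :
    1 / N * (a * (1 + c * σ) + 2 * (d * σ)) < (1 - xA) ^ 2 * (1 / t * (1 - Ct)) := by
  have h1σ : 0 < 1 - σ := by linarith
  have hcσ1 : c * σ ≤ 1 / 4 := by
    have : c * σ ≤ 1 / 2 * (1 / 2) := mul_le_mul (by linarith) hσ1 hσ0.le (by norm_num)
    linarith
  have g0 : 0 < a - d * σ := by
    have : d * σ ≤ 1 / 2 * (1 / 2) := mul_le_mul (by linarith) hσ1 hσ0.le (by norm_num)
    have : 0 < h * σ := by positivity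
    linarith
  have g1 : (a - d * σ) ^ 2 ≤ (1 - xA) ^ 2 := pow_le_pow_left₀ g0.le hx 2
  have g3 : 0 < 1 - 2 * c * σ := by linarith
  have ht' : 0 < 1 / t := by positivity
  have g5 : (a - d * σ) ^ 2 * (1 / t * (1 - 2 * c * σ)) ≤ (1 - xA) ^ 2 * (1 / t * (1 - Ct)) := by
    apply mul_le_mul g1 _ (mul_pos ht' g3).le (sq_nonneg _)
    exact mul_le_mul_of_nonneg_left (by linarith) ht'.le
  refine lt_of_lt_of_le ?_ g5
  rw [hNt]
  have g6 : (a - d * σ) ^ 2 * (1 / N * (1 / (1 - σ)) * (1 - 2 * c * σ)) =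
      1 / N * ((a - d * σ) ^ 2 * (1 - 2 * c * σ) / (1 - σ)) := by
    ring
  rw [g6]
  apply mul_lt_mul_of_pos_left _ (by positivity)
  rw [lt_div_iff₀ h1σ]
  exact polyA hσ0 hσ1 hh0 hh1 hd0 hd1 hc0 hc1 ha

/-- final step for `xB` -/
lemma finB {N s σ h d c β xB : ℝ} (hN : 0 < N) (hs : 0 < s) (hσ0 : 0 < σ) (hσ1 : σ ≤ 1 / 2)
    (hh0 : 0 < h) (hh1 : h ≤ 1 / 300)
    (hd0 : 0 < d) (hd1 : d ≤ h / 64) (hc0 : 0 < c) (hc1 : c ≤ h / 1000)
    (hβ : β = (1 + h) * σ) (hNs : 1 / s = 1 / N * (1 / σ)) (hx : β - d * σ ≤ xB) :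
    1 / N * (β * (1 + c * σ) + 3 * (d * σ)) < xB ^ 2 * (1 / s * (1 - c)) := by
  have g0 : 0 < β - d * σ := by
    have e : β - d * σ = (1 + h - d) * σ := by rw [hβ]; ring
    rw [e]
    apply mul_pos _ hσ0
    linarith
  have g1 : (β - d * σ) ^ 2 ≤ xB ^ 2 := pow_le_pow_left₀ g0.le hx 2
  have g3 : 0 < 1 - c := by linarith
  have hs' : 0 < 1 / s := by positivity
  have g5 : (β - d * σ) ^ 2 * (1 / s * (1 - c)) ≤ xB ^ 2 * (1 / s * (1 - c)) :=
    mul_le_mul_of_nonneg_right g1 (mul_pos hs' g3).le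
  refine lt_of_lt_of_le ?_ g5
  rw [hNs]
  have g6 : (β - d * σ) ^ 2 * (1 / N * (1 / σ) * (1 - c)) =
      1 / N * ((1 + h - d) ^ 2 * (1 - c) * σ) := by
    have e : β - d * σ = (1 + h - d) * σ := by rw [hβ]; ring
    rw [e]
    have e2 : σ ^ 2 * (1 / σ) = σ := by
      rw [sq, mul_assoc, mul_one_div_cancel hσ0.ne', mul_one]
    calc ((1 + h - d) * σ) ^ 2 * (1 / N * (1 / σ) * (1 - c))
        = 1 / N * ((1 + h - d) ^ 2 * (1 - c) * (σ ^ 2 * (1 / σ))) := by ring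
      _ = _ := by rw [e2]
  rw [g6]
  apply mul_lt_mul_of_pos_left _ (by positivity)
  have g7 : β * (1 + c * σ) + 3 * (d * σ) = ((1 + h) * (1 + c * σ) + 3 * d) * σ := by
    rw [hβ]; ring
  rw [g7]
  apply mul_lt_mul_of_pos_right _ hσ0
  exact polyB hσ0 hσ1 hh0 hh1 hd0 hd1 hc0 hc1

lemma settingF {s t C N c σ : ℝ} (hs : 0 < s) (hst : s ≤ t) (hN : N = s + t)
    (hσ : σ = s / (s + t)) (hc : c = C / s) :
    C / N = c * σ ∧ 1 / t = 1 / N * (1 / (1 - σ)) ∧ 1 / s = 1 / N * (1 / σ) ∧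
      1 / t - C / t ^ 2 = 1 / t * (1 - C / t) ∧ 1 / s - C / s ^ 2 = 1 / s * (1 - c) := by
  have ht : 0 < t := hs.trans_le hst
  have hN0 : 0 < s + t := by linarith
  subst hN
  refine ⟨?_, ?_, ?_, ?_, ?_⟩
  · rw [hc, hσ]; field_simp
  · have : 1 - σ = t / (s + t) := by rw [hσ]; field_simp; ring
    rw [this]; field_simp
  · rw [hσ]; field_simp
  · field_simp
  · rw [hc]; field_simp

/-- dropping the factor `1 + C'` and changing the denominator -/
lemma frac_le {Q x y c : ℝ} (hQ : 0 ≤ Q) (hx : 0 < x) (hxy : x ≤ y) (hc : 0 ≤ c) :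
    Q / y ≤ (1 + c) * Q / x := by
  calc Q / y ≤ Q / x := div_le_div_of_nonneg_left hQ hx hxy
    _ ≤ (1 + c) * Q / x := by
      apply div_le_div_of_nonneg_right _ hx.le
      have := mul_nonneg hc hQ
      linarith

theorem s_numf : S_NUMF := by
  intro r C hr hC
  obtain ⟨hh0, hh1, hrh, hd0, hd1, hd2⟩ := eta_facts hr
  set h := eta r with hh
  set d := del r with hd
  obtain ⟨n, hn⟩ := exists_nat_ge (1000 * C / h)
  have hn0 : (1 : ℝ) ≤ n := by
    refine le_trans ?_ hn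
    rw [le_div_iff₀ hh0]
    linarith
  have hn1 : 1 ≤ n := by exact_mod_cast hn0
  refine ⟨n, hn1, ?_⟩
  intro s t hs hst σ α β N hN hσ hα hβ xA xB nA nB n2 q QB QA R hn2 hq hQB hQA hR
    H1 H2 H3 H4 H5 H6 H7 H8
  have hs0 : 0 < s := by linarith
  have ht0 : 0 < t := hs0.trans_le hst
  have hN0 : 0 < N := by rw [hN]; linarith
  rw [hN] at hσ
  have hC0 : (0 : ℝ) ≤ C := by linarith
  obtain ⟨k1, k2, k3, k4, k5⟩ := setting hs0 hst hC0 hσ
  obtain ⟨m1, m2, m3, m4, m5⟩ := settingF (c := C / s) hs0 hst hN hσ rfl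
  have hc0 : 0 < C / s := by positivity
  have hc1 : C / s ≤ h / 1000 := by
    rw [div_le_iff₀ hs0]
    rw [div_le_iff₀ hh0] at hn
    have := mul_le_mul_of_nonneg_right hs hh0.le
    linarith
  have hCt0 : 0 < C / t := by positivity
  generalize C / s = c at *
  have hdσ : 0 < d * σ := mul_pos hd0 k1
  have hhσ : 0 < h * σ := mul_pos hh0 k1
  have hdσ1 : d * σ ≤ 1 / 300 * (1 / 2) := mul_le_mul (by linarith) k2 k1.le (by norm_num)
  have hhσ1 : h * σ ≤ 1 / 300 * (1 / 2) := mul_le_mul (by linarith) k2 k1.le (by norm_num)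
  have hA : 0 < α - d * σ := by
    have hAlow : α - d * σ = (1 - h - d) * σ := by rw [hα]; ring
    rw [hAlow]
    apply mul_pos _ k1
    linarith
  have hα' : α = σ - h * σ := by rw [hα]; ring
  have hβ' : β = σ + h * σ := by rw [hβ]; ring
  have hαβ : α ≤ β := by linarith
  have hBu : β + d * σ ≤ 3 / 4 := by linarith
  have H1' := abs_le.mp H1
  have H2' := abs_le.mp H2
  have H3' := abs_le.mp H3
  have H4' := abs_le.mp H4
  have hxA : α - d * σ ≤ xA := by linarith [H1'.1]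
  have hxA2 : xA ≤ α + d * σ := by linarith [H1'.2]
  have hxB : β - d * σ ≤ xB := by linarith [H2'.1]
  have hxB2 : xB ≤ β + d * σ := by linarith [H2'.2]
  have hg : 0 < 1 - β - d * σ := by linarith
  have hR1 : (1 - β - d * σ) ^ (r - 2) ≤ (1 - xB) ^ (r - 2) :=
    pow_le_pow_left₀ hg.le (by linarith) _
  have hR2 : (1 - β - d * σ) ^ (r - 2) ≤ (1 - xA) ^ (r - 2) :=
    pow_le_pow_left₀ hg.le (by linarith) _
  have hR3 : (α - d * σ) ^ (r - 2) ≤ xA ^ (r - 2) := pow_le_pow_left₀ hA.le hxA _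
  have hR4 : (α - d * σ) ^ (r - 2) ≤ xB ^ (r - 2) := pow_le_pow_left₀ hA.le (by linarith) _
  have hp1 : 0 < (1 - β - d * σ) ^ (r - 2) := pow_pos hg _
  have hp2 : 0 < (α - d * σ) ^ (r - 2) := pow_pos hA _
  -- the main quantity
  have hmain : n2 + R * q ≤ 1 / N * (1 + c * σ) := by
    refine H5.trans (le_of_eq ?_)
    rw [← m1]
    ring
  refine ⟨by linarith, by linarith, ?_, ?_, ?_⟩
  · have e1 : R * QA / (1 - xA) ^ (r - 2) ≤ R * q * (1 - α) + d * σ / N := by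
      refine le_trans ?_ H7
      rw [mul_div_assoc]
      exact mul_le_mul_of_nonneg_left (frac_le hQA hp1 hR2 hCt0.le) hR.le
    have e2 : n2 - nA ≤ (1 - α) * n2 + d * σ / N := by linarith [H3'.1]
    have e3 : (n2 - nA) + R * QA / (1 - xA) ^ (r - 2) ≤
        1 / N * ((1 - α) * (1 + c * σ) + 2 * (d * σ)) := by
      have f1 := mul_le_mul_of_nonneg_left hmain (show 0 ≤ 1 - α by linarith)
      have f2 : 1 / N * ((1 - α) * (1 + c * σ) + 2 * (d * σ)) =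
          (1 - α) * (1 / N * (1 + c * σ)) + 2 * (d * σ / N) := by ring
      have f3 : (1 - α) * (n2 + R * q) = (1 - α) * n2 + R * q * (1 - α) := by ring
      rw [f2]
      rw [f3] at f1
      linarith
    refine e3.trans_lt ?_
    rw [m4]
    exact finA hN0 ht0 k1 k2 hh0 hh1 hd0 hd1 hc0 hc1 (by linarith) m2 k4 (by linarith)
  · have hxB0 : 0 < xB := by linarith
    have e1 : R * QB / xB ^ (r - 2) ≤ R * q * β + 2 * (d * σ / N) := by
      refine le_trans ?_ H8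
      rw [mul_div_assoc]
      exact mul_le_mul_of_nonneg_left (frac_le hQB hp2 hR4 hc0.le) hR.le
    have e2 : nB ≤ β * n2 + d * σ / N := by linarith [H4'.2]
    have hβ0 : 0 < β := by linarith
    have e3 : nB + R * QB / xB ^ (r - 2) ≤ 1 / N * (β * (1 + c * σ) + 3 * (d * σ)) := by
      have f1 := mul_le_mul_of_nonneg_left hmain hβ0.le
      have f2 : 1 / N * (β * (1 + c * σ) + 3 * (d * σ)) =
          β * (1 / N * (1 + c * σ)) + 3 * (d * σ / N) := by ring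
      have f3 : β * (n2 + R * q) = β * n2 + R * q * β := by ring
      rw [f2]
      rw [f3] at f1
      linarith
    refine e3.trans_lt ?_
    rw [m5]
    exact finB hN0 hs0 k1 k2 hh0 hh1 hd0 hd1 hc0 hc1 hβ m3 hxB
  · refine le_trans ?_ H6
    apply add_le_add
    · exact div_le_div_of_nonneg_left (by positivity) hp2 hR3
    · exact div_le_div_of_nonneg_left (by positivity) hp1 hR1

end Pool.Agent.W12.PH
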