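import Pool.Agent.W984.PH.Stm

set_option autoImplicit false

open Finset Pool.Agent.W984.PH

namespace Pool.Agent.W12.PH

lemma bb_succ (r : ℕ) : bb (r + 1) = bb r + r := by
  unfold bb; push_cast; ring

lemma bb_nonneg (r : ℕ) : 0 ≤ bb r := by
  unfold bb
  rcases r with _ | r
  · simp
  · push_cast
    have : (0 : ℝ) ≤ r := by positivity
    have h : (r : ℝ) + 1 - 1 = r := by ring
    rw [h]
    positivity

theorem s_fp : S_FP := by
  intro r κ hκ
  induction r with
  | zero =>
    intro _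
    refine ⟨?_, ?_, ?_, ?_⟩
    · simp [bb, fp_zero]
    · simp [bb, fp_zero]
    · simp [fp_zero]
    · simp [fp_zero]
  | succ r ih =>
    intro h
    push_cast at h
    have hr : (0 : ℝ) ≤ r := by positivity
    have h1 : (r : ℝ) * κ ≤ 1 := by linarith
    obtain ⟨a1, a2, a3, a4⟩ := ih (by nlinarith)
    rw [fp_succ, bb_succ]
    have hrk : 0 ≤ (r : ℝ) * κ := by positivity
    have hb := bb_nonneg r
    refine ⟨?_, ?_, ?_, ?_⟩
    · nlinarith
    · have e1 : fp r κ * (1 - r * κ) ≤ (1 - bb r * κ + (r : ℝ) ^ 4 * κ ^ 2) * (1 - r * κ) :=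
        mul_le_mul_of_nonneg_right a2 (by linarith)
      have e2 : (1 - bb r * κ + (r : ℝ) ^ 4 * κ ^ 2) * (1 - r * κ) ≤
          1 - (bb r + r) * κ + (r * bb r + (r : ℝ) ^ 4) * κ ^ 2 := by
        have : 0 ≤ (r : ℝ) ^ 4 * κ ^ 2 * (r * κ) := by positivity
        nlinarith
      have e3 : r * bb r + (r : ℝ) ^ 4 ≤ ((r + 1 : ℕ) : ℝ) ^ 4 := by
        unfold bb
        push_cast
        have : 0 ≤ (r : ℝ) ^ 3 := by positivity
        have : 0 ≤ (r : ℝ) ^ 2 := by positivity
        nlinarith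
      have e4 : (r * bb r + (r : ℝ) ^ 4) * κ ^ 2 ≤ ((r + 1 : ℕ) : ℝ) ^ 4 * κ ^ 2 :=
        mul_le_mul_of_nonneg_right e3 (by positivity)
      linarith
    · exact mul_nonneg a3 (by linarith)
    · nlinarith

theorem s_bl : S_BL := by
  intro V _ x U hx r
  have hX : 0 ≤ ∑ v ∈ U, x v := sum_nonneg hx
  have hn : 0 ≤ ∑ v ∈ U, (x v) ^ 2 := sum_nonneg fun v _ => sq_nonneg _
  induction r with
  | zero =>
    have h1 := es_rec x U 0
    simp only [zero_add, es_one, es_zero, mul_one, Nat.cast_zero] at h1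
    have h2 : bb 2 = 1 := by unfold bb; norm_num
    simp only [zero_add, pow_zero, mul_one]
    rw [h2]
    have h3 : ((2 : ℕ).factorial : ℝ) = 2 := by norm_num [Nat.factorial]
    rw [h3]
    nlinarith
  | succ r ih =>
    have h1 := es_rec x U (r + 1)
    have h2 : ∑ v ∈ U, (x v) ^ 2 * es x (U.erase v) (r + 1) ≤
        (∑ v ∈ U, (x v) ^ 2) * es x U (r + 1) := by
      rw [sum_mul]
      apply sum_le_sum
      intro v _
      exact mul_le_mul_of_nonneg_left (es_mono x _ _ (erase_subset _ _) hx _) (sq_nonneg _)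
    have h3 := es_le_pow x U hx (r + 1)
    have hf : ((r + 1 + 2).factorial : ℝ) = ((r : ℝ) + 3) * ((r + 2).factorial : ℝ) := by
      rw [show r + 1 + 2 = (r + 2) + 1 by ring, Nat.factorial_succ]
      push_cast
      ring
    have hf2 : ((r + 2).factorial : ℝ) = ((r : ℝ) + 2) * ((r + 1).factorial : ℝ) := by
      rw [show r + 2 = (r + 1) + 1 by ring, Nat.factorial_succ]
      push_cast
      ring
    have hb : bb (r + 1 + 2) = bb (r + 2) + (r + 2) := by
      rw [show r + 1 + 2 = (r + 2) + 1 by ring, bb_succ]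
      push_cast
      ring
    have hfp : (0 : ℝ) < ((r + 2).factorial : ℝ) := by positivity
    rw [hf, hb]
    have h4 : ((r : ℝ) + 3) * es x U (r + 1 + 2) = (∑ v ∈ U, x v) * es x U (r + 2) -
        ∑ v ∈ U, (x v) ^ 2 * es x (U.erase v) (r + 1) := by
      push_cast at h1
      have e1 : es x U (r + 1 + 1) = es x U (r + 2) := rfl
      rw [e1] at h1
      linarith
    have h5 : ((r : ℝ) + 3) * ((r + 2).factorial : ℝ) * es x U (r + 1 + 2) =
        ((r + 2).factorial : ℝ) * ((∑ v ∈ U, x v) * es x U (r + 2) -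
        ∑ v ∈ U, (x v) ^ 2 * es x (U.erase v) (r + 1)) := by
      rw [← h4]; ring
    rw [h5]
    have h6 : ((r + 2).factorial : ℝ) * ((∑ v ∈ U, x v) * es x U (r + 2) -
        ∑ v ∈ U, (x v) ^ 2 * es x (U.erase v) (r + 1)) ≥
        (∑ v ∈ U, x v) * (((r + 2).factorial : ℝ) * es x U (r + 2)) -
        (∑ v ∈ U, (x v) ^ 2) * (((r : ℝ) + 2) * (((r + 1).factorial : ℝ) * es x U (r + 1))) := by
      have := mul_le_mul_of_nonneg_left h2 hfp.le
      rw [hf2] at this ⊢
      nlinarith
    have h7 : (∑ v ∈ U, x v) * (((r + 2).factorial : ℝ) * es x U (r + 2)) ≥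
        (∑ v ∈ U, x v) * ((∑ v ∈ U, x v) ^ (r + 2)
        - bb (r + 2) * (∑ v ∈ U, (x v) ^ 2) * (∑ v ∈ U, x v) ^ r) :=
      mul_le_mul_of_nonneg_left ih hX
    have h8 : (∑ v ∈ U, (x v) ^ 2) * (((r : ℝ) + 2) * (((r + 1).factorial : ℝ) * es x U (r + 1))) ≤
        (∑ v ∈ U, (x v) ^ 2) * (((r : ℝ) + 2) * (∑ v ∈ U, x v) ^ (r + 1)) :=
      mul_le_mul_of_nonneg_left (mul_le_mul_of_nonneg_left h3 (by positivity)) hn
    have h9 : (∑ v ∈ U, x v) ^ (r + 1 + 2)
        - (bb (r + 2) + (r + 2)) * (∑ v ∈ U, (x v) ^ 2) * (∑ v ∈ U, x v) ^ (r + 1) =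
        (∑ v ∈ U, x v) * ((∑ v ∈ U, x v) ^ (r + 2)
        - bb (r + 2) * (∑ v ∈ U, (x v) ^ 2) * (∑ v ∈ U, x v) ^ r) -
        (∑ v ∈ U, (x v) ^ 2) * (((r : ℝ) + 2) * (∑ v ∈ U, x v) ^ (r + 1)) := by ring
    rw [h9]
    linarith

theorem s_bu : S_BU := by
  intro V _ x U μ hx hμ hX r
  set n2 := ∑ v ∈ U, (x v) ^ 2 with hn2
  have hn : 0 ≤ n2 := sum_nonneg fun v _ => sq_nonneg _
  have hne : U.Nonempty := by
    rw [nonempty_iff_ne_empty]
    intro h
    rw [h, sum_empty] at hX
    norm_num at hX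
  have hμ0 : 0 ≤ μ := by
    obtain ⟨v, hv⟩ := hne
    exact (hx v hv).trans (hμ v hv)
  have hnμ : n2 ≤ μ := by
    calc n2 ≤ ∑ v ∈ U, μ * x v := by
          apply sum_le_sum
          intro v hv
          rw [sq]
          exact mul_le_mul_of_nonneg_right (hμ v hv) (hx v hv)
      _ = μ := by rw [← mul_sum, hX, mul_one]
  have hes : ∀ j, 0 ≤ es x U j := fun j => es_nonneg x U hx j
  have hle1 : ∀ j : ℕ, (j.factorial : ℝ) * es x U j ≤ 1 := by
    intro j
    have := es_le_pow x U hx j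
    rw [hX, one_pow] at this
    exact this
  -- cases
  have main : ∀ j : ℕ, (((j + 2).factorial : ℕ) : ℝ) * es x U (j + 2)
      ≤ 1 - bb (j + 2) * n2 + (((j + 2 : ℕ)) : ℝ) ^ 4 * μ * n2 := by
    intro j
    induction j with
    | zero =>
      have h1 := es_rec x U 0
      simp only [zero_add, es_one, es_zero, mul_one, Nat.cast_zero] at h1
      rw [hX] at h1
      have h2 : bb 2 = 1 := by unfold bb; norm_num
      simp only [zero_add]
      rw [h2]
      have h3 : ((2 : ℕ).factorial : ℝ) = 2 := by norm_num [Nat.factorial]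
      rw [h3]
      have : 0 ≤ ((2 : ℕ) : ℝ) ^ 4 * μ * n2 := by positivity
      linarith
    | succ j ih =>
      have h1 := es_rec x U (j + 1)
      rw [hX, one_mul] at h1
      have h2 : n2 * (es x U (j + 1) - μ * es x U j) ≤
          ∑ v ∈ U, (x v) ^ 2 * es x (U.erase v) (j + 1) := by
        rw [hn2, sum_mul]
        apply sum_le_sum
        intro v hv
        apply mul_le_mul_of_nonneg_left _ (sq_nonneg _)
        have e1 := es_erase x U v hv j
        have e2 := es_mono x _ _ (erase_subset v U) hx j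
        have e3 : x v * es x (U.erase v) j ≤ μ * es x U j :=
          mul_le_mul (hμ v hv) e2 (es_nonneg x _ (fun w hw => hx w (mem_of_mem_erase hw)) j) hμ0
        linarith
      have hf : ((j + 1 + 2).factorial : ℝ) = ((j : ℝ) + 3) * ((j + 2).factorial : ℝ) := by
        rw [show j + 1 + 2 = (j + 2) + 1 by ring, Nat.factorial_succ]
        push_cast
        ring
      have hf2 : ((j + 2).factorial : ℝ) = ((j : ℝ) + 2) * ((j + 1).factorial : ℝ) := by
        rw [show j + 2 = (j + 1) + 1 by ring, Nat.factorial_succ]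
        push_cast
        ring
      have hf3 : ((j + 1).factorial : ℝ) = ((j : ℝ) + 1) * (j.factorial : ℝ) := by
        rw [Nat.factorial_succ]
        push_cast
        ring
      have hb : bb (j + 1 + 2) = bb (j + 2) + (j + 2) := by
        rw [show j + 1 + 2 = (j + 2) + 1 by ring, bb_succ]
        push_cast
        ring
      have hb2 : bb (j + 2) = bb (j + 1) + (j + 1) := by
        rw [show j + 2 = (j + 1) + 1 by ring, bb_succ]
        push_cast
        ring
      have hfp : (0 : ℝ) < ((j + 2).factorial : ℝ) := by positivity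
      have h4 : ((j : ℝ) + 3) * es x U (j + 1 + 2) = es x U (j + 2) -
          ∑ v ∈ U, (x v) ^ 2 * es x (U.erase v) (j + 1) := by
        push_cast at h1
        have e1 : es x U (j + 1 + 1) = es x U (j + 2) := rfl
        rw [e1] at h1
        linarith
      -- lower bound of `(j+1)! e_{j+1}`
      have h5 : 1 - bb (j + 1) * μ ≤ ((j + 1).factorial : ℝ) * es x U (j + 1) := by
        rcases j with _ | j
        · have : bb (0 + 1) = 0 := by unfold bb; norm_num
          rw [this, zero_add, es_one, hX]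
          simp
        · have h6 := s_bl V x U hx j
          rw [hX, one_pow, one_pow, mul_one, ← hn2] at h6
          have h7 : bb (j + 2) * n2 ≤ bb (j + 2) * μ :=
            mul_le_mul_of_nonneg_left hnμ (bb_nonneg _)
          have e1 : bb (j + 1 + 1) = bb (j + 2) := rfl
          have e2 : es x U (j + 1 + 1) = es x U (j + 2) := rfl
          have e3 : (j + 1 + 1).factorial = (j + 2).factorial := rfl
          rw [e1, e2, e3]
          linarith
      have h6 := hle1 j
      have h7 : ((j + 2).factorial : ℝ) * (es x U (j + 1) - μ * es x U j) ≥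
          ((j : ℝ) + 2) * (1 - bb (j + 1) * μ) - μ * (((j : ℝ) + 2) * ((j : ℝ) + 1)) := by
        have e1 : ((j + 2).factorial : ℝ) * (es x U (j + 1) - μ * es x U j) =
            ((j : ℝ) + 2) * (((j + 1).factorial : ℝ) * es x U (j + 1)) -
            (μ * (((j : ℝ) + 2) * ((j : ℝ) + 1))) * ((j.factorial : ℝ) * es x U j) := by
          rw [hf2, hf3]; ring
        rw [e1]
        have e2 : ((j : ℝ) + 2) * (1 - bb (j + 1) * μ) ≤
            ((j : ℝ) + 2) * (((j + 1).factorial : ℝ) * es x U (j + 1)) :=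
          mul_le_mul_of_nonneg_left h5 (by positivity)
        have e3 : (μ * (((j : ℝ) + 2) * ((j : ℝ) + 1))) * ((j.factorial : ℝ) * es x U j) ≤
            (μ * (((j : ℝ) + 2) * ((j : ℝ) + 1))) * 1 :=
          mul_le_mul_of_nonneg_left h6 (by positivity)
        linarith
      have h8 : ((j + 2).factorial : ℝ) * ∑ v ∈ U, (x v) ^ 2 * es x (U.erase v) (j + 1) ≥
          n2 * (((j : ℝ) + 2) * (1 - bb (j + 1) * μ) - μ * (((j : ℝ) + 2) * ((j : ℝ) + 1))) := by
        have e1 := mul_le_mul_of_nonneg_left h2 hfp.le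
        have e2 := mul_le_mul_of_nonneg_left h7 hn
        nlinarith
      have h9 : ((j + 1 + 2).factorial : ℝ) * es x U (j + 1 + 2) =
          ((j + 2).factorial : ℝ) * es x U (j + 2) -
          ((j + 2).factorial : ℝ) * ∑ v ∈ U, (x v) ^ 2 * es x (U.erase v) (j + 1) := by
        rw [hf, ← mul_sub, ← h4]; ring
      have h10 : n2 * (((j : ℝ) + 2) * (1 - bb (j + 1) * μ) - μ * (((j : ℝ) + 2) * ((j : ℝ) + 1)))
          = ((j : ℝ) + 2) * n2 - ((j : ℝ) + 2) * bb (j + 2) * (μ * n2) := by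
        rw [hb2]; ring
      rw [h10] at h8
      have h11 : ((j + 2 : ℕ) : ℝ) ^ 4 + ((j : ℝ) + 2) * bb (j + 2) ≤ ((j + 1 + 2 : ℕ) : ℝ) ^ 4 := by
        unfold bb
        push_cast
        have hj : (0 : ℝ) ≤ j := by positivity
        have : 0 ≤ (j : ℝ) ^ 3 := by positivity
        have : 0 ≤ (j : ℝ) ^ 2 := by positivity
        nlinarith
      have h12 : (((j + 2 : ℕ) : ℝ) ^ 4 + ((j : ℝ) + 2) * bb (j + 2)) * (μ * n2) ≤
          ((j + 1 + 2 : ℕ) : ℝ) ^ 4 * (μ * n2) :=
        mul_le_mul_of_nonneg_right h11 (by positivity)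
      rw [h9, hb]
      have e : (((j + 2 : ℕ) : ℝ) ^ 4 + ((j : ℝ) + 2) * bb (j + 2)) * (μ * n2) =
        ((j + 2 : ℕ) : ℝ) ^ 4 * μ * n2 + ((j : ℝ) + 2) * bb (j + 2) * (μ * n2) := by ring
      rw [e] at h12
      have e' : ((j + 1 + 2 : ℕ) : ℝ) ^ 4 * (μ * n2) = ((j + 1 + 2 : ℕ) : ℝ) ^ 4 * μ * n2 := by ring
      rw [e'] at h12
      linarith
  rcases r with _ | r
  · simp [es_zero, bb]
  · rcases r with _ | r
    · rw [zero_add, es_one, hX]
      have : bb 1 = 0 := by unfold bb; norm_num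
      rw [this]
      simp
      positivity
    · exact main r

lemma fp_bd {r : ℕ} {κ : ℝ} (hκ : 0 ≤ κ) (h : ((r : ℝ) - 1) * κ ≤ 1) : 0 ≤ fp r κ ∧ fp r κ ≤ 1 :=
  ⟨(s_fp r κ hκ h).2.2.1, (s_fp r κ hκ h).2.2.2⟩

lemma fp_F1 (r : ℕ) {k1 k : ℝ} (h1 : 0 ≤ k1) (h2 : k1 ≤ k) (h : ((r : ℝ) - 1) * k ≤ 1) :
    fp r k * (1 + bb r * (k - k1)) ≤ fp r k1 := by
  induction r with
  | zero => simp [fp_zero, bb]
  | succ r ih =>
    push_cast at h
    have hk : 0 ≤ k := h1.trans h2
    have hr : (0 : ℝ) ≤ r := by positivity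
    have hrk : (r : ℝ) * k ≤ 1 := by linarith
    have hrk' : ((r : ℝ) - 1) * k ≤ 1 := by nlinarith
    have hi := ih hrk'
    have hb := fp_bd (r := r) hk hrk'
    have hbb := bb_nonneg r
    rw [fp_succ, fp_succ, bb_succ]
    set D := k - k1 with hD
    have hD0 : 0 ≤ D := by linarith
    have hk1 : k1 = k - D := by rw [hD]; ring
    have e1 : (1 - r * k) * (1 + r * D) ≤ 1 - r * k1 := by
      rw [hk1]
      have : 0 ≤ (r * k) * (r * D) := by positivity
      nlinarith
    have e0 : 0 ≤ 1 - (r : ℝ) * k := by linarith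
    have e2 : fp r k * (1 + bb r * D) * ((1 - r * k) * (1 + r * D)) ≤ fp r k1 * (1 - r * k1) := by
      apply mul_le_mul hi e1
      · positivity
      · exact (mul_nonneg hb.1 (by positivity)).trans hi
    have e3 : fp r k * (1 - r * k) * (1 + (bb r + r) * D) ≤
        fp r k * (1 + bb r * D) * ((1 - r * k) * (1 + r * D)) := by
      have e4 : 1 + (bb r + r) * D ≤ (1 + bb r * D) * (1 + r * D) := by
        have : 0 ≤ (bb r * D) * (r * D) := by positivity
        nlinarith
      have e5 : 0 ≤ fp r k * (1 - r * k) := mul_nonneg hb.1 e0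
      have := mul_le_mul_of_nonneg_left e4 e5
      nlinarith
    exact e3.trans e2

lemma fp_F2 (i : ℕ) {k1 k : ℝ} (h1 : 0 ≤ k1) (h2 : k1 ≤ k) (h : ((i : ℝ) - 1) * k ≤ 1) :
    fp i k1 ≤ fp i k + bb i * (k - k1) := by
  induction i with
  | zero => simp [fp_zero, bb]
  | succ i ih =>
    push_cast at h
    have hk : 0 ≤ k := h1.trans h2
    have hr : (0 : ℝ) ≤ i := by positivity
    have hrk : (i : ℝ) * k ≤ 1 := by linarith
    have hrk' : ((i : ℝ) - 1) * k ≤ 1 := by nlinarith
    have hi := ih hrk'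
    have hrk1 : ((i : ℝ) - 1) * k1 ≤ 1 := by nlinarith
    have hb1 := fp_bd (r := i) h1 hrk1
    have hbb := bb_nonneg i
    rw [fp_succ, fp_succ, bb_succ]
    set D := k - k1 with hD
    have hD0 : 0 ≤ D := by linarith
    have hk1 : k1 = k - D := by rw [hD]; ring
    have e0 : 0 ≤ 1 - (i : ℝ) * k := by linarith
    have e1 : fp i k1 * (1 - i * k1) = fp i k1 * (1 - i * k) + i * D * fp i k1 := by
      rw [hk1]; ring
    rw [e1]
    have e2 : fp i k1 * (1 - i * k) ≤ (fp i k + bb i * D) * (1 - i * k) :=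
      mul_le_mul_of_nonneg_right hi e0
    have e3 : i * D * fp i k1 ≤ i * D * 1 := mul_le_mul_of_nonneg_left hb1.2 (by positivity)
    have e4 : bb i * D * (i * k) ≥ 0 := by positivity
    nlinarith

theorem s_step (hLM : S_LM) : S_STEP := by
  intro V _ x U hx r κ P hr hκ hB hP hX hmain i hi
  set X := ∑ v ∈ U, x v with hXd
  set B := bb r with hBd
  have hr2 : (2 : ℝ) ≤ r := by exact_mod_cast hr
  have hBr : (r : ℝ) - 1 ≤ B := by rw [hBd]; unfold bb; nlinarith
  have hB1 : 1 ≤ B := by linarith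
  have hrk : ((r : ℝ) - 1) * κ < 1 := by nlinarith
  have hir : (i : ℝ) ≤ r := by exact_mod_cast hi
  have hik : ((i : ℝ) - 1) * κ ≤ 1 := by nlinarith
  have hBk : 0 < 1 - B * κ := by linarith
  set d := P / (X ^ r * (B * (1 - B * κ))) with hd
  have hden : 0 < X ^ r * (B * (1 - B * κ)) := by positivity
  have hd0 : 0 ≤ d := div_nonneg hP hden.le
  have hPd : P = d * (X ^ r * (B * (1 - B * κ))) := by rw [hd]; field_simp
  have hbi := bb_nonneg i
  rcases le_total d κ with hc | hc
  · have hF1 := fp_F1 r (k1 := κ - d) (k := κ) (by linarith) (by linarith) hrk.le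
    have hW := (s_fp r κ hκ hrk.le).1
    have e1 : κ - (κ - d) = d := by ring
    rw [e1] at hF1
    have e2 : fp r κ + B * d * (1 - B * κ) ≤ fp r (κ - d) := by
      have : B * d * (1 - B * κ) ≤ B * d * fp r κ :=
        mul_le_mul_of_nonneg_left hW (by positivity)
      linarith
    have e3 : (r.factorial : ℝ) * es x U r ≤ fp r (κ - d) * X ^ r := by
      refine hmain.trans ?_
      have h1 : fp r κ * X ^ r + P = (fp r κ + B * d * (1 - B * κ)) * X ^ r := by
        conv_lhs => rw [hPd]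
        ring
      rw [h1]
      exact mul_le_mul_of_nonneg_right e2 (by positivity)
    have e4 := hLM V x U hx r (κ - d) (by omega) (by linarith) (by nlinarith) e3 i hi
    refine e4.trans ?_
    have hF2 := fp_F2 i (k1 := κ - d) (k := κ) (by linarith) (by linarith) hik
    rw [e1] at hF2
    exact mul_le_mul_of_nonneg_right hF2 (by positivity)
  · have hF2 := fp_F2 i (k1 := 0) (k := κ) le_rfl hκ hik
    have e1 : fp i 0 = 1 := by simp [fp]
    rw [e1, sub_zero] at hF2
    refine (es_le_pow x U hx i).trans ?_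
    have e2 : 1 ≤ fp i κ + bb i * d := by
      have := mul_le_mul_of_nonneg_left hc hbi
      linarith
    have e3 : 0 ≤ X ^ i := by positivity
    nlinarith

end Pool.Agent.W12.PH
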